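import Mathlib
import Pool.Agent.Work.MP_052a41_nc.All

/-! Ranges of projections of norm close to one on `C(K)`. -/

set_option autoImplicit false

namespace Pool.Agent.Results.MP_052a41_an.SmallNormProjections

/-- `X` is the range of a bounded linear projection of `C(K)` of norm at most `c`. -/
def ComplementedWith {K : Type} [MetricSpace K] [CompactSpace K] (c : ℝ)
    (X : Submodule ℝ C(K, ℝ)) : Prop :=
  ∃ P : C(K, ℝ) →L[ℝ] X, (∀ x : X, P x = x) ∧ ∀ f : C(K, ℝ), ‖(P f : C(K, ℝ))‖ ≤ c * ‖f‖

/-- The dual space of `X` is separable. -/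
def SeparableDual {K : Type} [MetricSpace K] [CompactSpace K] (X : Submodule ℝ C(K, ℝ)) : Prop :=
  TopologicalSpace.SeparableSpace (StrongDual ℝ X)

/-- `X` is isomorphic to `C(L)` for a countable compact Hausdorff space `L`. -/
def IsoCountableCK {K : Type} [MetricSpace K] [CompactSpace K] (X : Submodule ℝ C(K, ℝ)) : Prop :=
  ∃ (L : Type) (_ : TopologicalSpace L) (_ : CompactSpace L), T2Space L ∧ Countable L ∧
    Nonempty (X ≃L[ℝ] C(L, ℝ))

/-- There is `c > 1` such that for every compact metric space `K` and every subspace `X` of the real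
space `C(K)` which is the range of a projection of norm at most `c` and has a separable dual, `X` is
isomorphic to `C(L)` for a countable compact Hausdorff space `L`. -/
theorem result : ∃ c : ℝ, 1 < c ∧
    ∀ (K : Type) [MetricSpace K] [CompactSpace K] (X : Submodule ℝ C(K, ℝ)),
      ComplementedWith c X → SeparableDual X → IsoCountableCK X := by
  obtain ⟨c, hc, H⟩ := Pool.NC.main
  refine ⟨c, hc, ?_⟩
  rintro K _ _ X ⟨P, hP, hPc⟩ hX
  exact H K X P hP hPc hX

end Pool.Agent.Results.MP_052a41_an.SmallNormProjections
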