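import Mathlib
import Pool.Agent.Work.MP_052a41_ue.All

/-! Upper `l_r` estimates in all infinite-dimensional subspaces of a complemented subspace of
`C(K)` with separable dual. -/

set_option autoImplicit false

namespace Pool.Agent.Results.MP_052a41_an.UpperEstimates

/-- Let `K` be a compact metric space, `X` a complemented subspace of the real space `C(K)` with
separable dual, `Y` an infinite-dimensional subspace of `X` and `1 ≤ r < ∞`.  Then `Y` contains a
sequence of unit vectors `z 0, z 1, ...` with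
`‖∑ j < m, β j • z j‖ ≤ C * (∑ j < m, |β j| ^ r) ^ (1 / r)` for all real `β` and all `m`. -/
theorem result (K : Type) [MetricSpace K] [CompactSpace K] (X : Submodule ℝ C(K, ℝ))
    (hX : X.ClosedComplemented)
    (hsep : TopologicalSpace.SeparableSpace (StrongDual ℝ X))
    (Y : Submodule ℝ C(K, ℝ)) (hYX : Y ≤ X) (hY : ¬ FiniteDimensional ℝ Y)
    (r : ℝ) (hr : 1 ≤ r) :
    ∃ (z : ℕ → C(K, ℝ)) (C : ℝ), (∀ j, z j ∈ Y ∧ ‖z j‖ = 1) ∧
      ∀ (m : ℕ) (β : ℕ → ℝ), ‖∑ j ∈ Finset.range m, β j • z j‖ ≤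
        C * (∑ j ∈ Finset.range m, |β j| ^ r) ^ (1 / r) :=
  Pool.UE.main K X hX hsep Y hYX hY r hr

end Pool.Agent.Results.MP_052a41_an.UpperEstimates
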